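import Pool.Agent.X263.Bc.Div

/-!
Crossed products of division rings with groups with unique products.
-/

set_option autoImplicit false

namespace Pool.Agent.X263.Bc

open Matrix TH57.Thr
open Pool.Agent.X263.Bd (du)

/-- a crossed product `S = K * G` of a division ring `K` with a group `G` -/
structure Crossed (K S G : Type) [DivisionRing K] [Ring S] [Group G] where
  /-- the coefficients -/
  ι : K →+* S
  /-- the basis -/
  u : G → Sˣ
  conj : ∀ (g : G) (k : K), ∃ k' : K, (u g : S) * ι k = ι k' * u g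
  mul : ∀ g h : G, ∃ k : K, (u g : S) * u h = ι k * u (g * h)
  /-- the elements `u g` are a basis of the left vector space `S` over `K` -/
  e : (G →₀ K) ≃+ S
  he : ∀ g k, e (Finsupp.single g k) = ι k * u g

namespace Crossed

variable {K S G : Type} [DivisionRing K] [Ring S] [Group G] (X : Crossed K S G)

include X in
theorem nontriv [Nonempty G] : Nontrivial S := by
  refine ⟨⟨X.ι 1 * X.u 1, 0, ?_⟩⟩
  rw [← X.he, ← map_zero X.e]
  intro h
  have h1 := X.e.injective h
  rw [Finsupp.single_eq_zero] at h1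
  exact one_ne_zero h1

/-- the unit of a coefficient -/
def iu (k : K) (hk : k ≠ 0) : Sˣ := Units.map X.ι.toMonoidHom (Units.mk0 k hk)

theorem iu_val (k : K) (hk : k ≠ 0) : (X.iu k hk : S) = X.ι k := rfl

theorem prod_exists (a b : K) (g h : G) : ∃ p : K,
    (X.ι a * X.u g) * (X.ι b * X.u h) = X.ι p * X.u (g * h) ∧ (a ≠ 0 → b ≠ 0 → p ≠ 0) := by
  obtain ⟨b', hb'⟩ := X.conj g b
  obtain ⟨k, hk⟩ := X.mul g h
  refine ⟨a * b' * k, ?_, ?_⟩
  · rw [map_mul, map_mul, mul_assoc (X.ι a), ← mul_assoc (X.u g : S), hb', mul_assoc (X.ι b'), hk]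
    simp only [mul_assoc]
  · intro ha hb hp
    have hn : Nontrivial S := X.nontriv
    have h1 : ((X.iu a ha * X.u g) * (X.iu b hb * X.u h) : Sˣ).val = 0 := by
      rw [Units.val_mul, Units.val_mul, Units.val_mul, iu_val, iu_val, mul_assoc (X.ι a),
        ← mul_assoc (X.u g : S), hb', mul_assoc (X.ι b'), hk, ← mul_assoc, ← mul_assoc,
        ← map_mul, ← map_mul, hp, map_zero, zero_mul]
    exact Units.ne_zero _ h1

/-- the coefficients of an element -/
noncomputable def co (x : S) : G →₀ K := X.e.symm x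

theorem co_sum (x : S) : x = ∑ g ∈ (X.co x).support, X.ι (X.co x g) * X.u g := by
  have h1 : x = X.e (X.co x) := (X.e.apply_symm_apply x).symm
  conv_lhs => rw [h1, ← Finsupp.sum_single (X.co x)]
  rw [Finsupp.sum, map_sum]
  exact Finset.sum_congr rfl fun g _ => X.he _ _

theorem co_zero_iff (x : S) : X.co x = 0 ↔ x = 0 := by
  unfold co
  rw [AddEquiv.map_eq_zero_iff]

theorem co_unique (x y : S) (a b : G) (ha : a ∈ (X.co x).support) (hb : b ∈ (X.co y).support)
    (h : UniqueMul (X.co x).support (X.co y).support a b) : X.co (x * y) (a * b) ≠ 0 := by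
  classical
  choose P hP hP0 using X.prod_exists
  have h1 : X.co (x * y) = ∑ g ∈ (X.co x).support, ∑ k ∈ (X.co y).support,
      Finsupp.single (g * k) (P (X.co x g) (X.co y k) g k) := by
    apply X.e.injective
    have : X.e (X.co (x * y)) = x * y := X.e.apply_symm_apply _
    rw [this, map_sum]
    conv_lhs => rw [X.co_sum x, X.co_sum y]
    rw [Finset.sum_mul]
    refine Finset.sum_congr rfl fun g _ => ?_
    rw [Finset.mul_sum, map_sum]
    refine Finset.sum_congr rfl fun k _ => ?_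
    rw [hP, X.he]
  rw [h1, Finsupp.finsetSum_apply, Finset.sum_eq_single a, Finsupp.finsetSum_apply,
    Finset.sum_eq_single b, Finsupp.single_eq_same]
  · exact hP0 _ _ _ _ (Finsupp.mem_support_iff.1 ha) (Finsupp.mem_support_iff.1 hb)
  · intro k hk hkb
    rw [Finsupp.single_eq_of_ne]
    intro h2
    exact hkb (h ha hk h2.symm).2
  · intro h2
    exact absurd hb h2
  · intro g hg hga
    rw [Finsupp.finsetSum_apply]
    apply Finset.sum_eq_zero
    intro k hk
    rw [Finsupp.single_eq_of_ne]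
    intro h2
    exact hga (h hg hk h2.symm).1
  · intro h2
    exact absurd ha h2

theorem supp_ne (x : S) (hx : x ≠ 0) : (X.co x).support.Nonempty := by
  rw [Finset.nonempty_iff_ne_empty]
  intro h
  rw [Finsupp.support_eq_empty, co_zero_iff] at h
  exact hx h

include X in
theorem noZeroDiv [UniqueProds G] : NoZeroDivisors S := by
  refine ⟨fun {x y} h => ?_⟩
  by_contra hcon
  push Not at hcon
  obtain ⟨a, ha, b, hb, hab⟩ := UniqueProds.uniqueMul_of_nonempty (X.supp_ne x hcon.1)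
    (X.supp_ne y hcon.2)
  have h1 := X.co_unique x y a b ha hb hab
  rw [h, (X.co_zero_iff 0).2 rfl] at h1
  exact h1 rfl

theorem u_one : ∃ k : K, k ≠ 0 ∧ (X.u 1 : S) = X.ι k := by
  obtain ⟨k, hk⟩ := X.mul 1 1
  rw [one_mul] at hk
  have h1 : (X.u 1 : S) = X.ι k := by
    have := congrArg (fun z => z * ((X.u 1)⁻¹ : Sˣ).val) hk
    simpa [mul_assoc] using this
  refine ⟨k, ?_, h1⟩
  rintro rfl
  rw [map_zero] at h1
  have hn : Nontrivial S := X.nontriv
  exact Units.ne_zero _ h1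

theorem co_one : ∃ k : K, X.co (1 : S) = Finsupp.single 1 k := by
  obtain ⟨k, hk0, hk⟩ := X.u_one
  refine ⟨k⁻¹, ?_⟩
  unfold co
  rw [AddEquiv.symm_apply_eq, X.he, hk, ← map_mul, inv_mul_cancel₀ hk0, map_one]

theorem unit_form [UniqueProds G] (x : Sˣ) : ∃ (k : K) (g : G), k ≠ 0 ∧
    (x : S) = X.ι k * X.u g := by
  classical
  haveI : TwoUniqueProds G := UniqueProds.toTwoUniqueProds_of_group
  have hn : Nontrivial S := X.nontriv
  obtain ⟨y, hy⟩ : ∃ y, y = (x⁻¹ : Sˣ).val := ⟨_, rfl⟩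
  have hxy : (x : S) * y = 1 := by rw [hy]; exact x.mul_inv
  have hx0 : (x : S) ≠ 0 := x.ne_zero
  have hy0 : y ≠ 0 := by rw [hy]; exact x⁻¹.ne_zero
  obtain ⟨k1, hk1⟩ := X.co_one
  have hcard : (X.co x).support.card * (X.co y).support.card ≤ 1 := by
    by_contra hcon
    push Not at hcon
    obtain ⟨p, hp, q, hq, hpq, hup, huq⟩ := TwoUniqueProds.uniqueMul_of_one_lt_card hcon
    rw [Finset.mem_product] at hp hq
    have key : ∀ p : G × G, p.1 ∈ (X.co x).support → p.2 ∈ (X.co y).support →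
        UniqueMul (X.co x).support (X.co y).support p.1 p.2 → p.1 * p.2 = 1 := by
      intro p h1 h2 h3
      have h4 := X.co_unique x y p.1 p.2 h1 h2 h3
      rw [hxy, hk1] at h4
      by_contra h5
      exact h4 (Finsupp.single_eq_of_ne h5)
    have h1 := key p hp.1 hp.2 hup
    have h2 := key q hq.1 hq.2 huq
    have h3 := hup hq.1 hq.2 (by rw [h1, h2])
    exact hpq (Prod.ext h3.1.symm h3.2.symm)
  have h1 := Finset.card_pos.2 (X.supp_ne _ hx0)
  have h2 := Finset.card_pos.2 (X.supp_ne _ hy0)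
  have h3 : (X.co x).support.card = 1 := by nlinarith
  obtain ⟨g, hg⟩ := Finset.card_eq_one.1 h3
  refine ⟨X.co x g, g, ?_, ?_⟩
  · have : g ∈ (X.co x).support := by rw [hg]; exact Finset.mem_singleton_self g
    exact Finsupp.mem_support_iff.1 this
  · have h4 := X.co_sum x
    rw [hg, Finset.sum_singleton] at h4
    exact h4

theorem inv_conj (g : G) (k : K) : ∃ k' : K, ((X.u g)⁻¹ : Sˣ).val * X.ι k * X.u g = X.ι k' := by
  obtain ⟨a, ha⟩ := X.mul g g⁻¹
  obtain ⟨b, hb⟩ := X.mul g⁻¹ g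
  obtain ⟨c, hc0, hc⟩ := X.u_one
  have hn : Nontrivial S := X.nontriv
  rw [mul_inv_cancel, hc, ← map_mul] at ha
  rw [inv_mul_cancel, hc, ← map_mul] at hb
  have ha0 : a * c ≠ 0 := by
    intro h
    rw [h, map_zero] at ha
    exact Units.ne_zero (X.u g * X.u g⁻¹) ha
  have h1 : ((X.u g)⁻¹ : Sˣ).val = X.u g⁻¹ * X.ι (a * c)⁻¹ := by
    symm
    apply Units.eq_inv_of_mul_eq_one_left
    rw [← mul_assoc, ha, ← map_mul, mul_inv_cancel₀ ha0, map_one]
  obtain ⟨k', hk'⟩ := X.conj g⁻¹ ((a * c)⁻¹ * k)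
  refine ⟨k' * (b * c), ?_⟩
  rw [h1, mul_assoc (X.u g⁻¹ : S), ← map_mul, hk', mul_assoc, hb, ← map_mul]

/-- **bordered matrices over crossed products** -/
theorem border [UniqueProds G] (n : ℕ) (A : (Matrix (Fin n) (Fin n) S)ˣ) (i₀ j₀ : Fin n)
    (g h : Fin n → G)
    (hA : ∀ i j, i ≠ i₀ → j ≠ j₀ → ∃ k : K, (A : Matrix (Fin n) (Fin n) S) i j =
      X.ι k * X.u (g i * h j)) :
    ∃ (m : ℕ) (k : K) (γ : G)
      (C : (Matrix (Fin n ⊕ Fin (m + 1)) (Fin n ⊕ Fin (m + 1)) S)ˣ), k ≠ 0 ∧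
      C ∈ commutator (Matrix (Fin n ⊕ Fin (m + 1)) (Fin n ⊕ Fin (m + 1)) S)ˣ ∧
      Matrix.fromBlocks (A : Matrix (Fin n) (Fin n) S) 0 0 1 =
        Matrix.diagonal (fun i : Fin n ⊕ Fin (m + 1) => if i = Sum.inr (0 : Fin (m + 1)) then
          X.ι k * X.u γ else 1) *
        (C : Matrix (Fin n ⊕ Fin (m + 1)) (Fin n ⊕ Fin (m + 1)) S) := by
  haveI := X.noZeroDiv
  have h1 : (UP S).P (Fin n) (du (fun i => (X.u (g i))⁻¹) * A * du (fun j => (X.u (h j))⁻¹)) := by
    apply border_div (UP S) X.ι _ (Fin n) rfl _ i₀ j₀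
    intro i j hi hj
    obtain ⟨k, hk⟩ := hA i j hi hj
    obtain ⟨a, ha⟩ := X.mul (g i) (h j)
    have hn : Nontrivial S := X.nontriv
    have ha0 : a ≠ 0 := by
      rintro rfl
      rw [map_zero, zero_mul] at ha
      exact Units.ne_zero (X.u (g i) * X.u (h j)) ha
    have h2 : (X.u (g i * h j) : S) = X.ι a⁻¹ * (X.u (g i) * X.u (h j)) := by
      rw [ha, ← mul_assoc, ← map_mul, inv_mul_cancel₀ ha0, map_one, one_mul]
    obtain ⟨k', hk'⟩ := X.inv_conj (g i) (k * a⁻¹)
    refine ⟨k', ?_⟩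
    rw [Units.val_mul, Units.val_mul]
    change (Matrix.diagonal (fun i => (((X.u (g i))⁻¹ : Sˣ) : S)) *
      (A : Matrix (Fin n) (Fin n) S) *
      Matrix.diagonal (fun j => (((X.u (h j))⁻¹ : Sˣ) : S))) i j = _
    rw [Matrix.mul_diagonal, Matrix.diagonal_mul, hk, h2, ← hk', map_mul]
    simp only [mul_assoc]
    rw [Units.mul_inv, mul_one]
  have h2 : A = (du (fun i => (X.u (g i))⁻¹))⁻¹ * (du (fun i => (X.u (g i))⁻¹) * A *
      du (fun j => (X.u (h j))⁻¹)) * (du (fun j => (X.u (h j))⁻¹))⁻¹ := by group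
  have h3 : (UP S).P (Fin n) A := by
    rw [h2]
    exact (UP S).mul _ _ ((UP S).mul _ _ ((UP S).inv _ ((UP S).du_mem _)) h1)
      ((UP S).inv _ ((UP S).du_mem _))
  obtain ⟨m, x, C, hC, h4⟩ := UP_form A h3
  obtain ⟨k, γ, hk, hx⟩ := X.unit_form x
  exact ⟨m, k, γ, C, hk, hC, by rw [h4, hx]⟩

end Crossed

end Pool.Agent.X263.Bc
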