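import Pool.Agent.X263.Bc.Pred

/-!
Invertible matrices over a domain with entries in a division subring off one row and one column.
-/

set_option autoImplicit false

namespace Pool.Agent.X263.Bc

open Matrix TH57.Thr

variable {S : Type} [Ring S] (T : Pr S)
variable {κ μ : Type} [Fintype κ] [DecidableEq κ] [Fintype μ] [DecidableEq μ]

theorem Pr.of_HH (U : Subgroup Sˣ) (x : (Matrix κ κ S)ˣ) (hx : x ∈ HH U κ) : T.P κ x := by
  let H : Subgroup (Matrix κ κ S)ˣ :=
    { carrier := {y | T.P κ y}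
      mul_mem' := fun a b => T.mul _ _ a b
      one_mem' := T.one
      inv_mem' := fun a => T.inv _ a }
  have h1 : HH U κ ≤ H := by
    apply sup_le
    · intro y hy
      exact T.tt y (TT_of_mem ⊥ _ (commutator_le_HH ⊥ hy))
    · rw [Subgroup.closure_le]
      rintro _ ⟨i, u, hu, rfl⟩
      exact T.un i u
  exact h1 hx

theorem Pr.of_TT (U : Subgroup Sˣ) (x : (Matrix κ κ S)ˣ) (h : TT U x) : T.P κ x := by
  obtain ⟨μ, i1, i2, h1⟩ := h
  exact T.unst μ x (T.of_HH U _ h1)

theorem Pr.int (g : (Matrix κ κ ℤ)ˣ) : T.P κ (Units.map (mpm (Int.castRingHom S)) g) :=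
  T.of_TT ⊤ _ (TT_map ⊤ ⊤ _ (fun _ _ => trivial) _ (TT_int _ κ rfl g))

theorem Pr.perm (e : κ ≃ κ) : T.P κ (pu (R := S) e) := by
  have h1 : pu (R := S) e = Units.map (mpm (Int.castRingHom S)) (pu (R := ℤ) e) := by
    apply Units.ext
    ext1 i j
    change (1 : Matrix κ κ S) (e i) j = (((1 : Matrix κ κ ℤ) (e i) j : ℤ) : S)
    rw [Matrix.one_apply, Matrix.one_apply]
    split_ifs <;> simp
  rw [h1]
  exact T.int _

theorem mul_pu (A : Matrix κ κ S) (e : κ ≃ κ) (i j : κ) :
    (A * (pu (R := S) e : Matrix κ κ S)) i j = A i (e.symm j) := by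
  rw [Matrix.mul_apply, Finset.sum_eq_single (e.symm j)]
  · change A i (e.symm j) * (1 : Matrix κ κ S) (e (e.symm j)) j = _
    rw [e.apply_symm_apply, Matrix.one_apply_eq, mul_one]
  · intro k _ hk
    change A i k * (1 : Matrix κ κ S) (e k) j = 0
    rw [Matrix.one_apply_ne, mul_zero]
    intro h
    exact hk (by rw [← h, e.symm_apply_apply])
  · intro h
    exact absurd (Finset.mem_univ _) h

/-- elimination with a pivot -/
theorem Pr.schur (p : κ) (B : (Matrix κ κ S)ˣ) (u : Sˣ) (hu : (B : Matrix κ κ S) p p = u) :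
    ∃ D : (Matrix {x // ¬ x = p} {x // ¬ x = p} S)ˣ,
      (∀ i j, (D : Matrix {x // ¬ x = p} {x // ¬ x = p} S) i j =
        (B : Matrix κ κ S) i j - (B : Matrix κ κ S) i p * (u⁻¹ : Sˣ) * (B : Matrix κ κ S) p j) ∧
      (T.P _ D → T.P κ B) := by
  let e : {x // x = p} ⊕ {x // ¬ x = p} ≃ κ := Equiv.sumCompl (fun x => x = p)
  let M := Units.map (TH57.Thr.re (R := S) e) B
  have hMv : ∀ a b, M.val a b = (B : Matrix κ κ S) (e a) (e b) := fun a b => rfl
  obtain ⟨b, hb⟩ : ∃ b, b = M.val.toBlocks₁₂ := ⟨_, rfl⟩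
  obtain ⟨c, hc⟩ : ∃ c, c = M.val.toBlocks₂₁ := ⟨_, rfl⟩
  obtain ⟨D', hD'⟩ : ∃ D', D' = M.val.toBlocks₂₂ := ⟨_, rfl⟩
  let X : (Matrix {x // x = p} {x // x = p} S)ˣ :=
    Units.map (dgm (⟨p, rfl⟩ : {x // x = p})) u
  have hX : M.val.toBlocks₁₁ = (X : Matrix {x // x = p} {x // x = p} S) := by
    ext1 a b
    have ha : a = ⟨p, rfl⟩ := Subtype.ext a.2
    have hb : b = ⟨p, rfl⟩ := Subtype.ext b.2
    rw [ha, hb]
    change (B : Matrix κ κ S) p p = dgm (⟨p, rfl⟩ : {x // x = p}) (u : S) ⟨p, rfl⟩ ⟨p, rfl⟩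
    rw [hu, dgm_apply, Matrix.diagonal_apply_eq, Function.update_self]
  have hM : M.val = fromBlocks (X : Matrix {x // x = p} {x // x = p} S) b c D' := by
    rw [hb, hc, hD', ← hX, Matrix.fromBlocks_toBlocks]
  obtain ⟨X', hX'⟩ : ∃ X' : Matrix {x // x = p} {x // x = p} S, X' = (X⁻¹ :
    (Matrix {x // x = p} {x // x = p} S)ˣ).val := ⟨_, rfl⟩
  have hXX : (X : Matrix {x // x = p} {x // x = p} S) * X' = 1 := by rw [hX']; exact X.mul_inv
  have hXX' : X' * (X : Matrix {x // x = p} {x // x = p} S) = 1 := by rw [hX']; exact X.inv_mul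
  obtain ⟨L, hL1, hL2⟩ : ∃ L : (Matrix ({x // x = p} ⊕ {x // ¬ x = p})
      ({x // x = p} ⊕ {x // ¬ x = p}) S)ˣ, L.val = fromBlocks 1 0 (-(c * X')) 1 ∧ T.P _ L := by
    obtain ⟨L, hL⟩ := mk_tri (1 : (Matrix {x // x = p} {x // x = p} S)ˣ)
      (1 : (Matrix {x // ¬ x = p} {x // ¬ x = p} S)ˣ) (-(c * X'))
    exact ⟨L, hL, T.tt _ (TT_tri ⊥ _ _ _ L hL (TT_one ⊥) (TT_one ⊥))⟩
  obtain ⟨E, hE1, hE2⟩ : ∃ E : (Matrix ({x // x = p} ⊕ {x // ¬ x = p})
      ({x // x = p} ⊕ {x // ¬ x = p}) S)ˣ, E.val = fromBlocks 1 (-(X' * b)) 0 1 ∧ T.P _ E := by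
    obtain ⟨E, hE⟩ := mk_tri (1 : (Matrix {x // ¬ x = p} {x // ¬ x = p} S)ˣ)
      (1 : (Matrix {x // x = p} {x // x = p} S)ˣ) (-(X' * b))
    refine ⟨Units.map (TH57.Thr.re (Equiv.sumComm {x // x = p} {x // ¬ x = p})) E, ?_,
      T.tt _ (TT_re ⊥ _ _ (TT_tri ⊥ _ _ _ E hE (TT_one ⊥) (TT_one ⊥)))⟩
    change E.val.submatrix (Equiv.sumComm {x // x = p} {x // ¬ x = p})
      (Equiv.sumComm {x // x = p} {x // ¬ x = p}) = _
    rw [hE]
    ext (i | i) (j | j) <;> rfl
  obtain ⟨D0, hD0⟩ : ∃ D0, D0 = D' - c * X' * b := ⟨_, rfl⟩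
  have hN : (L * M * E).val = fromBlocks (X : Matrix {x // x = p} {x // x = p} S) 0 0 D0 := by
    rw [Units.val_mul, Units.val_mul, hL1, hM, hE1, Matrix.fromBlocks_multiply,
      Matrix.fromBlocks_multiply]
    congr 1
    · simp
    · rw [Matrix.one_mul, Matrix.zero_mul, add_zero, Matrix.mul_one, Matrix.one_mul,
        Matrix.zero_mul, add_zero, Matrix.mul_neg, ← Matrix.mul_assoc, hXX, Matrix.one_mul,
        neg_add_cancel]
    · rw [Matrix.neg_mul, Matrix.mul_assoc, hXX']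
      simp only [Matrix.mul_one, Matrix.one_mul, neg_add_cancel, Matrix.mul_zero, add_zero]
    · have e1 : -(c * X') * (X : Matrix {x // x = p} {x // x = p} S) +
          (1 : Matrix {x // ¬ x = p} {x // ¬ x = p} S) * c = 0 := by
        rw [Matrix.neg_mul, Matrix.mul_assoc, hXX', Matrix.mul_one, Matrix.one_mul, neg_add_cancel]
      rw [e1, Matrix.zero_mul, zero_add, Matrix.mul_one, Matrix.one_mul, hD0, Matrix.neg_mul]
      abel
  obtain ⟨Y, hY⟩ : ∃ Y, Y = (L * M * E)⁻¹.val := ⟨_, rfl⟩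
  have h1 : (L * M * E).val * Y = 1 := by rw [hY]; exact (L * M * E).mul_inv
  have h2 : Y * (L * M * E).val = 1 := by rw [hY]; exact (L * M * E).inv_mul
  rw [hN, ← Matrix.fromBlocks_toBlocks Y, Matrix.fromBlocks_multiply, ← Matrix.fromBlocks_one,
    Matrix.fromBlocks_inj] at h1 h2
  obtain ⟨_, _, _, a4⟩ := h1
  obtain ⟨_, _, _, b4⟩ := h2
  simp only [Matrix.zero_mul, Matrix.mul_zero, zero_add] at a4 b4
  let D : (Matrix {x // ¬ x = p} {x // ¬ x = p} S)ˣ := ⟨D0, Y.toBlocks₂₂, a4, b4⟩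
  refine ⟨D, ?_, ?_⟩
  · intro i j
    change D0 i j = _
    rw [hD0, Matrix.sub_apply, Matrix.mul_apply, Fintype.sum_unique, Matrix.mul_apply,
      Fintype.sum_unique, hD', hc, hb]
    have e1 : X' default default = ((u⁻¹ : Sˣ) : S) := by
      rw [hX']
      change dgm (⟨p, rfl⟩ : {x // x = p}) ((u⁻¹ : Sˣ) : S) ⟨p, rfl⟩ ⟨p, rfl⟩ = _
      rw [dgm_apply, Matrix.diagonal_apply_eq, Function.update_self]
    rw [e1]
    rfl
  · intro hD
    apply T.unre e
    change T.P _ M
    have h3 : L * M * E = Units.map (stm _) X *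
        Units.map (TH57.Thr.re (Equiv.sumComm {x // x = p} {x // ¬ x = p}))
          (Units.map (stm _) D) := by
      apply Units.ext
      rw [hN, Units.val_mul]
      have e1 : ((Units.map (stm {x // ¬ x = p}) X :
          (Matrix ({x // x = p} ⊕ {x // ¬ x = p}) ({x // x = p} ⊕ {x // ¬ x = p}) S)ˣ)).val =
          fromBlocks (X : Matrix {x // x = p} {x // x = p} S) 0 0 1 := rfl
      have e2 : (Units.map (TH57.Thr.re (Equiv.sumComm {x // x = p} {x // ¬ x = p}))
          (Units.map (stm _) D)).val = fromBlocks 1 0 0 D0 := by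
        ext (i | i) (j | j)
        · rfl
        · rfl
        · rfl
        · rfl
      rw [e1, e2, Matrix.fromBlocks_multiply]
      simp
    have h4 : M = L⁻¹ * (L * M * E) * E⁻¹ := by group
    rw [h4, h3]
    exact T.mul _ _ (T.mul _ _ (T.inv _ hL2) (T.mul _ _ (T.st _ _ (T.un _ _))
      (T.re _ _ (T.st _ _ hD)))) (T.inv _ hE2)

theorem unit_of_right [NoZeroDivisors S] (x y : S) (h : x * y = 1) : y * x = 1 := by
  rcases subsingleton_or_nontrivial S with hs | hs
  · exact Subsingleton.elim _ _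
  · have hx : x ≠ 0 := by
      rintro rfl
      rw [zero_mul] at h
      exact zero_ne_one h
    have h1 : x * (y * x - 1) = 0 := by
      rw [mul_sub, ← mul_assoc, h, one_mul, mul_one, sub_self]
    exact sub_eq_zero.1 ((mul_eq_zero.1 h1).resolve_left hx)

/-- **entries in a division subring off one row and one column** -/
theorem border_div [NoZeroDivisors S] {K : Type} [DivisionRing K] (ι : K →+* S) :
    ∀ (N : ℕ) (κ : Type) [Fintype κ] [DecidableEq κ], Fintype.card κ = N →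
    ∀ (A : (Matrix κ κ S)ˣ) (i₀ j₀ : κ),
      (∀ i j, i ≠ i₀ → j ≠ j₀ → ∃ k : K, (A : Matrix κ κ S) i j = ι k) → T.P κ A := by
  intro N
  induction N with
  | zero =>
    intro κ _ _ hN A i₀
    exact absurd ((Fintype.card_eq_zero_iff.1 hN).false i₀) not_false
  | succ N ih =>
    intro κ _ _ hN A i₀ j₀ hA
    obtain ⟨Y, hY⟩ : ∃ Y, Y = (A⁻¹ : (Matrix κ κ S)ˣ).val := ⟨_, rfl⟩
    have hAY : (A : Matrix κ κ S) * Y = 1 := by rw [hY]; exact A.mul_inv
    by_cases h1 : ∃ p, p ≠ i₀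
    · -- the pivot
      have key : ∃ (p q : κ) (u : Sˣ), p ≠ i₀ ∧ (A : Matrix κ κ S) p q = u ∧
          ∃ j₁, j₁ ≠ q ∧ ∀ i j, i ≠ i₀ → i ≠ p → j ≠ j₁ → j ≠ q → ∃ k : K,
            (A : Matrix κ κ S) i j - (A : Matrix κ κ S) i q * (u⁻¹ : Sˣ) * (A : Matrix κ κ S) p j
              = ι k := by
        by_cases h2 : ∃ p q, p ≠ i₀ ∧ q ≠ j₀ ∧ (A : Matrix κ κ S) p q ≠ 0
        · obtain ⟨p, q, hp, hq, hpq⟩ := h2
          obtain ⟨k, hk⟩ := hA p q hp hq
          have hk0 : k ≠ 0 := by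
            rintro rfl
            rw [map_zero] at hk
            exact hpq hk
          refine ⟨p, q, Units.map ι.toMonoidHom (Units.mk0 k hk0), hp, hk, j₀, Ne.symm hq, ?_⟩
          intro i j hi _ hj _
          obtain ⟨a, ha⟩ := hA i j hi hj
          obtain ⟨b, hb⟩ := hA i q hi hq
          obtain ⟨c, hc⟩ := hA p j hp hj
          refine ⟨a - b * k⁻¹ * c, ?_⟩
          rw [ha, hb, hc, map_sub, map_mul, map_mul]
          rfl
        · push Not at h2
          obtain ⟨p, hp⟩ := h1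
          have h3 : (A : Matrix κ κ S) p j₀ * Y j₀ p = 1 := by
            have h4 := congrFun (congrFun hAY p) p
            rw [Matrix.mul_apply, Finset.sum_eq_single j₀, Matrix.one_apply_eq] at h4
            · exact h4
            · intro j _ hj
              rw [h2 p j hp hj, zero_mul]
            · intro h
              exact absurd (Finset.mem_univ _) h
          obtain ⟨j₁, hj₁⟩ : ∃ j₁, j₁ ≠ j₀ := by
            by_contra hcon
            push Not at hcon
            exact hp (by rw [hcon p, hcon i₀])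
          refine ⟨p, j₀, ⟨_, Y j₀ p, h3, unit_of_right _ _ h3⟩, hp, rfl, j₁, hj₁, ?_⟩
          intro i j hi hip _ hj
          refine ⟨0, ?_⟩
          rw [h2 i j hi hj, h2 p j hp hj, mul_zero, sub_zero, map_zero]
      obtain ⟨p, q, u, hp, hu, j₁, hj₁, hS⟩ := key
      let B := A * pu (R := S) (Equiv.swap p q)
      have hB : ∀ i j, (B : Matrix κ κ S) i j = (A : Matrix κ κ S) i (Equiv.swap p q j) := by
        intro i j
        change ((A : Matrix κ κ S) * (pu (R := S) (Equiv.swap p q)).val) i j = _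
        rw [mul_pu, Equiv.symm_swap]
      obtain ⟨D, hD1, hD2⟩ := T.schur p B u (by rw [hB, Equiv.swap_apply_left, hu])
      have hB2 : T.P κ B := by
        apply hD2
        have hcard : Fintype.card {x // ¬ x = p} = N := by
          rw [Fintype.card_subtype_compl, Fintype.card_subtype_eq, hN]
          rfl
        have hj₂ : Equiv.swap p q j₁ ≠ p := by
          intro h
          apply hj₁
          have := congrArg (Equiv.swap p q) h
          rwa [Equiv.swap_apply_self, Equiv.swap_apply_left] at this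
        apply ih _ hcard D ⟨i₀, Ne.symm hp⟩ ⟨Equiv.swap p q j₁, hj₂⟩
        rintro ⟨i, hi⟩ ⟨j, hj⟩ hii hjj
        rw [hD1, hB, hB, hB, Equiv.swap_apply_left]
        apply hS i (Equiv.swap p q j)
        · intro h
          exact hii (Subtype.ext h)
        · exact hi
        · intro h
          apply hjj
          apply Subtype.ext
          change j = Equiv.swap p q j₁
          rw [← h, Equiv.swap_apply_self]
        · intro h
          apply hj
          have := congrArg (Equiv.swap p q) h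
          rwa [Equiv.swap_apply_self, Equiv.swap_apply_right] at this
      have h5 : A = B * (pu (R := S) (Equiv.swap p q))⁻¹ := by
        change A = A * pu (R := S) (Equiv.swap p q) * (pu (R := S) (Equiv.swap p q))⁻¹
        group
      rw [h5]
      exact T.mul _ _ hB2 (T.inv _ (T.perm _))
    · push Not at h1
      have h2 : (A : Matrix κ κ S) i₀ i₀ * Y i₀ i₀ = 1 := by
        have h4 := congrFun (congrFun hAY i₀) i₀
        rw [Matrix.mul_apply, Finset.sum_eq_single i₀, Matrix.one_apply_eq] at h4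
        · exact h4
        · intro j _ hj
          exact absurd (h1 j) hj
        · intro h
          exact absurd (Finset.mem_univ _) h
      have h3 : A = Units.map (dgm i₀) ⟨_, Y i₀ i₀, h2, unit_of_right _ _ h2⟩ := by
        apply Units.ext
        ext1 i j
        rw [h1 i, h1 j]
        change _ = dgm i₀ ((A : Matrix κ κ S) i₀ i₀) i₀ i₀
        rw [dgm_apply, Matrix.diagonal_apply_eq, Function.update_self]
      rw [h3]
      exact T.un _ _

/-- the family of the matrices whose class in `K₁` is the class of a unit -/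
noncomputable def UP (S : Type) [Ring S] : Pr S where
  P κ _ _ x := TT (⊤ : Subgroup Sˣ) x
  mul x y hx hy := TT_mul _ x y hx hy
  inv x hx := TT_inv _ x hx
  tt x hx := by
    have h1 := TT_map (⊥ : Subgroup Sˣ) ⊤ (RingHom.id S) (fun _ _ => trivial) x hx
    have h2 : Units.map (mpm (RingHom.id S)) x = x := by
      apply Units.ext
      ext i j
      rfl
    rwa [h2] at h1
  st μ _ _ _ _ x hx := TT_st _ x hx
  unst μ _ _ _ _ x hx := TT_unst _ x hx
  re e x hx := TT_re _ e x hx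
  un i u := TT_of_mem _ _ (dgm_mem_HH _ _ _ trivial)

theorem UP_form (x : (Matrix κ κ S)ˣ) (hx : TT (⊤ : Subgroup Sˣ) x) :
    ∃ (m : ℕ) (u : Sˣ) (C : (Matrix (κ ⊕ Fin (m + 1)) (κ ⊕ Fin (m + 1)) S)ˣ),
      C ∈ commutator (Matrix (κ ⊕ Fin (m + 1)) (κ ⊕ Fin (m + 1)) S)ˣ ∧
      Matrix.fromBlocks (x : Matrix κ κ S) 0 0 1 =
        Matrix.diagonal (fun i : κ ⊕ Fin (m + 1) => if i = Sum.inr (0 : Fin (m + 1)) then
          (u : S) else 1) * (C : Matrix (κ ⊕ Fin (m + 1)) (κ ⊕ Fin (m + 1)) S) := by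
  obtain ⟨μ, i1, i2, h1⟩ := hx
  have h2 := (TT_more ⊤ _ μ h1 (Fin 1)).1
  have hcard : Fintype.card (Fin (Fintype.card μ + 1)) = Fintype.card (μ ⊕ Fin 1) := by simp
  let e : Fin (Fintype.card μ + 1) ≃ (μ ⊕ Fin 1) := Fintype.equivOfCardEq hcard
  have h3 := re_mem ⊤ (Equiv.sumCongr (Equiv.refl κ) e) _ h2
  obtain ⟨u, -, C, hC, h4⟩ := HH_form ⊤ (Sum.inr (0 : Fin (Fintype.card μ + 1))) _ h3
  refine ⟨Fintype.card μ, u, C, hC, ?_⟩
  have h5 := congrArg Units.val h4
  rw [Units.val_mul] at h5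
  convert h5 using 1
  · ext (i | i) (j | j) <;> simp [stm, TH57.Thr.re, Matrix.one_apply]
  · congr 1
    change _ = dgm (Sum.inr (0 : Fin (Fintype.card μ + 1))) (u : S)
    rw [dgm_apply]
    congr 1
    funext i
    by_cases h : i = Sum.inr (0 : Fin (Fintype.card μ + 1))
    · subst h; simp
    · rw [if_neg h, Function.update_of_ne h]; rfl

end Pool.Agent.X263.Bc
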