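import Pool.Agent.X263.Bd.Grp

/-!
Families of invertible matrices closed under the operations of `K₁`, and `2 × 2` matrices with a
central entry.
-/

set_option autoImplicit false

namespace Pool.Agent.X263.Bc

open Matrix TH57.Thr
open Pool.Agent.X263.Bd (e3 e3' st3 st3' Lf Lf_val Rt Rt_val TT_Lf TT_Rt dg dg_val du)

/-- families of invertible matrices closed under the operations of `K₁` -/
structure Pr (S : Type) [Ring S] where
  /-- the family -/
  P : ∀ (κ : Type) [Fintype κ] [DecidableEq κ], (Matrix κ κ S)ˣ → Prop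
  mul : ∀ {κ : Type} [Fintype κ] [DecidableEq κ] (x y : (Matrix κ κ S)ˣ),
    P κ x → P κ y → P κ (x * y)
  inv : ∀ {κ : Type} [Fintype κ] [DecidableEq κ] (x : (Matrix κ κ S)ˣ), P κ x → P κ x⁻¹
  tt : ∀ {κ : Type} [Fintype κ] [DecidableEq κ] (x : (Matrix κ κ S)ˣ),
    TT (⊥ : Subgroup Sˣ) x → P κ x
  st : ∀ {κ : Type} (μ : Type) [Fintype κ] [DecidableEq κ] [Fintype μ] [DecidableEq μ]
    (x : (Matrix κ κ S)ˣ), P κ x → P (κ ⊕ μ) (Units.map (stm μ) x)
  unst : ∀ {κ : Type} (μ : Type) [Fintype κ] [DecidableEq κ] [Fintype μ] [DecidableEq μ]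
    (x : (Matrix κ κ S)ˣ), P (κ ⊕ μ) (Units.map (stm μ) x) → P κ x
  re : ∀ {κ μ : Type} [Fintype κ] [DecidableEq κ] [Fintype μ] [DecidableEq μ] (e : μ ≃ κ)
    (x : (Matrix κ κ S)ˣ), P κ x → P μ (Units.map (TH57.Thr.re e) x)
  un : ∀ {κ : Type} [Fintype κ] [DecidableEq κ] (i : κ) (u : Sˣ), P κ (Units.map (dgm i) u)

namespace Pr

variable {S : Type} [Ring S] (T : Pr S)
variable {κ μ : Type} [Fintype κ] [DecidableEq κ] [Fintype μ] [DecidableEq μ]

theorem unre (e : μ ≃ κ) (x : (Matrix κ κ S)ˣ) (h : T.P μ (Units.map (TH57.Thr.re e) x)) :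
    T.P κ x := by
  have h1 := T.re e.symm _ h
  have h2 : Units.map (TH57.Thr.re e.symm) (Units.map (TH57.Thr.re e) x) = x := by
    apply Units.ext
    change ((x : Matrix κ κ S).submatrix e e).submatrix e.symm e.symm = x
    rw [Matrix.submatrix_submatrix]
    ext i j
    simp
  rwa [h2] at h1

/-- `1 + P Q` belongs to the family if `1 + Q P` does -/
theorem uv (P : Matrix κ μ S) (Q : Matrix μ κ S) (A : (Matrix κ κ S)ˣ)
    (hA : (A : Matrix κ κ S) = 1 + P * Q) :
    ∃ B : (Matrix μ μ S)ˣ, (B : Matrix μ μ S) = 1 + Q * P ∧ (T.P μ B → T.P κ A) := by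
  obtain ⟨A', hA'⟩ : ∃ A' : Matrix κ κ S, A' = ((A⁻¹ : (Matrix κ κ S)ˣ) : Matrix κ κ S) := ⟨_, rfl⟩
  have h1 : (1 + P * Q) * A' = 1 := by rw [← hA, hA']; exact A.mul_inv
  have h2 : A' * (1 + P * Q) = 1 := by rw [← hA, hA']; exact A.inv_mul
  have h1' : P * Q * A' = 1 - A' := by rw [add_mul, one_mul] at h1; rw [← h1]; abel
  have h2' : A' * (P * Q) = 1 - A' := by rw [mul_add, mul_one] at h2; rw [← h2]; abel
  let B : (Matrix μ μ S)ˣ :=
    { val := 1 + Q * P
      inv := 1 - Q * A' * P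
      val_inv := by
        have : Q * P * (Q * A' * P) = Q * P - Q * A' * P := by
          calc Q * P * (Q * A' * P) = Q * (P * Q * A') * P := by
                simp only [Matrix.mul_assoc]
            _ = _ := by rw [h1', Matrix.mul_sub, Matrix.mul_one, Matrix.sub_mul]
        rw [add_mul, one_mul, mul_sub, mul_one, this]
        abel
      inv_val := by
        have : Q * A' * P * (Q * P) = Q * P - Q * A' * P := by
          calc Q * A' * P * (Q * P) = Q * (A' * (P * Q)) * P := by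
                simp only [Matrix.mul_assoc]
            _ = _ := by rw [h2', Matrix.mul_sub, Matrix.mul_one, Matrix.sub_mul]
        rw [sub_mul, one_mul, mul_add, mul_one, this]
        abel }
  refine ⟨B, rfl, fun hB => ?_⟩
  obtain ⟨L, hL1, hL2⟩ : ∃ L : (Matrix (κ ⊕ μ) (κ ⊕ μ) S)ˣ,
      (L : Matrix (κ ⊕ μ) (κ ⊕ μ) S) = fromBlocks 1 0 Q 1 ∧ T.P _ L := by
    obtain ⟨L, hL⟩ := mk_tri (1 : (Matrix κ κ S)ˣ) (1 : (Matrix μ μ S)ˣ) Q
    exact ⟨L, hL, T.tt _ (TT_tri ⊥ _ _ _ L hL (TT_one ⊥) (TT_one ⊥))⟩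
  obtain ⟨E, hE1, hE2⟩ : ∃ E : (Matrix (κ ⊕ μ) (κ ⊕ μ) S)ˣ,
      (E : Matrix (κ ⊕ μ) (κ ⊕ μ) S) = fromBlocks 1 (-P) 0 1 ∧ T.P _ E := by
    obtain ⟨E, hE⟩ := mk_tri (1 : (Matrix μ μ S)ˣ) (1 : (Matrix κ κ S)ˣ) (-P)
    refine ⟨Units.map (TH57.Thr.re (Equiv.sumComm κ μ)) E, ?_,
      T.tt _ (TT_re ⊥ _ _ (TT_tri ⊥ _ _ _ E hE (TT_one ⊥) (TT_one ⊥)))⟩
    change (E : Matrix (μ ⊕ κ) (μ ⊕ κ) S).submatrix (Equiv.sumComm κ μ) (Equiv.sumComm κ μ) = _
    rw [hE]
    ext (i | i) (j | j) <;> rfl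
  let SB : (Matrix (κ ⊕ μ) (κ ⊕ μ) S)ˣ :=
    Units.map (TH57.Thr.re (Equiv.sumComm κ μ)) (Units.map (stm κ) B)
  have hSB : (SB : Matrix (κ ⊕ μ) (κ ⊕ μ) S) = fromBlocks 1 0 0 (1 + Q * P) := by
    have : (B : Matrix μ μ S) = 1 + Q * P := rfl
    ext (i | i) (j | j) <;> simp [SB, stm, TH57.Thr.re, Matrix.one_apply, this]
  have hSA : (Units.map (stm μ) A : Matrix (κ ⊕ μ) (κ ⊕ μ) S) = fromBlocks (1 + P * Q) 0 0 1 := by
    change fromBlocks (A : Matrix κ κ S) 0 0 1 = _
    rw [hA]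
  have hSBT : T.P _ SB := T.re _ _ (T.st κ B hB)
  apply T.unst μ
  have key : E * Units.map (stm μ) A * L = L * SB * E := by
    apply Units.ext
    rw [Units.val_mul, Units.val_mul, Units.val_mul, Units.val_mul, hSA, hSB, hE1, hL1,
      Matrix.fromBlocks_multiply, Matrix.fromBlocks_multiply, Matrix.fromBlocks_multiply,
      Matrix.fromBlocks_multiply]
    congr 1
    · simp [Matrix.neg_mul]
    · simp
    · simp
    · simp [Matrix.mul_neg]
  have key2 : Units.map (stm μ) A = E⁻¹ * (L * SB * E) * L⁻¹ := by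
    rw [← key]; group
  rw [key2]
  exact T.mul _ _ (T.mul _ _ (T.inv _ hE2) (T.mul _ _ (T.mul _ _ hL2 hSBT) hE2))
    (T.inv _ hL2)

theorem one : T.P κ 1 := T.tt _ (TT_one _)

theorem tv (i j : κ) (h : i ≠ j) (a : S) : T.P κ (TH57.Thr.tv i j h a) := T.tt _ (TT_tv _ _ _ _ _)

theorem dg_mem (u v : Sˣ) : T.P (Fin 2) (dg u v) := T.mul _ _ (T.un _ _) (T.un _ _)

theorem du_mem (v : κ → Sˣ) : T.P κ (du v) := by
  have key : ∀ s : Finset κ, T.P κ (du (fun i => if i ∈ s then v i else 1)) := by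
    intro s
    induction s using Finset.induction_on with
    | empty =>
      have : du (fun i : κ => if i ∈ (∅ : Finset κ) then v i else 1) = 1 := by
        apply Units.ext
        change Matrix.diagonal _ = 1
        rw [← Matrix.diagonal_one]
        congr 1
      rw [this]
      exact T.one
    | insert a s ha ih =>
      have : du (fun i => if i ∈ insert a s then v i else 1)
          = Units.map (dgm a) (v a) * du (fun i => if i ∈ s then v i else 1) := by
        apply Units.ext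
        rw [Units.val_mul]
        change Matrix.diagonal _ = (dgm a (v a : S)) * Matrix.diagonal _
        rw [dgm_apply, Matrix.diagonal_mul_diagonal]
        congr 1
        funext i
        by_cases h : i = a
        · subst h
          simp [ha]
        · simp [h]
      rw [this]
      exact T.mul _ _ (T.un _ _) ih
  have h := key Finset.univ
  simpa using h

/-- lower triangular matrices -/
theorem low (x : (Matrix (Fin 2) (Fin 2) S)ˣ) (c d : S)
    (hx : (x : Matrix (Fin 2) (Fin 2) S) = !![(1 : S), 0; c, d]) : T.P _ x := by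
  obtain ⟨y, hy⟩ : ∃ y : Matrix (Fin 2) (Fin 2) S, y = ((x⁻¹ : (Matrix (Fin 2) (Fin 2) S)ˣ) :
    Matrix (Fin 2) (Fin 2) S) := ⟨_, rfl⟩
  have h1 : (x : Matrix (Fin 2) (Fin 2) S) * y = 1 := by rw [hy]; exact x.mul_inv
  have h2 : y * (x : Matrix (Fin 2) (Fin 2) S) = 1 := by rw [hy]; exact x.inv_mul
  rw [hx] at h1 h2
  have e1 := congrFun (congrFun h1 0) 1
  have e2 := congrFun (congrFun h1 1) 1
  have e3 := congrFun (congrFun h2 1) 1
  simp [Matrix.mul_apply, Fin.sum_univ_two] at e1 e2 e3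
  rw [e1, mul_zero, zero_add] at e2
  let u : Sˣ := ⟨d, y 1 1, e2, e3⟩
  have h3 : x = TH57.Thr.tv 1 0 (by decide) c * Units.map (dgm (1 : Fin 2)) u := by
    apply Units.ext
    rw [Units.val_mul, hx]
    change _ = (1 + Matrix.single 1 0 c) * (dgm (1 : Fin 2) d)
    rw [dgm_apply]
    ext i j
    fin_cases i <;> fin_cases j <;>
      simp [Matrix.mul_apply, Fin.sum_univ_two, Matrix.single_apply, Matrix.one_apply,
        Matrix.diagonal_apply, Function.update]
  rw [h3]
  exact T.mul _ _ (T.tv _ _ _ _) (T.un _ _)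

end Pr

section ring

variable {R : Type} [Ring R]

/-- the main identity, for central elements -/
theorem main_identity (p m : R) (hp : ∀ y, y * p = p * y) (hm : ∀ y, y * m = m * y) (b c d : R)
    (h : p * (m * d) - c * b = 1) :
    !![(1 : R), 0, 0; -(d * c), 1, p * d; 0, 0, 1] *
      !![p, 0, b; 0, 1, 0; c, 0, m * d] *
      !![m, b, 0; c, p * d, 0; 0, 0, 1] *
      !![(1 : R), 0, 0; m * c, m * d, -1; -(p * (m * c)), -(c * b), p] =
    !![p * m, b, 0; c, d, 0; 0, 0, 1] := by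
  have hbp : b * p = p * b := hp b
  have hcp : c * p = p * c := hp c
  have hdp : d * p = p * d := hp d
  have hbm : b * m = m * b := hm b
  have hcm : c * m = m * c := hm c
  have hdm : d * m = m * d := hm d
  have hmp : m * p = p * m := hp m
  have hbp' : ∀ y, b * (p * y) = p * (b * y) := fun y => by
    rw [← mul_assoc, hbp, mul_assoc]
  have hcp' : ∀ y, c * (p * y) = p * (c * y) := fun y => by
    rw [← mul_assoc, hcp, mul_assoc]
  have hdp' : ∀ y, d * (p * y) = p * (d * y) := fun y => by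
    rw [← mul_assoc, hdp, mul_assoc]
  have hbm' : ∀ y, b * (m * y) = m * (b * y) := fun y => by
    rw [← mul_assoc, hbm, mul_assoc]
  have hcm' : ∀ y, c * (m * y) = m * (c * y) := fun y => by
    rw [← mul_assoc, hcm, mul_assoc]
  have hdm' : ∀ y, d * (m * y) = m * (d * y) := fun y => by
    rw [← mul_assoc, hdm, mul_assoc]
  have hmp' : ∀ y, m * (p * y) = p * (m * y) := fun y => by
    rw [← mul_assoc, hmp, mul_assoc]
  have hcb : c * b = p * (m * d) - 1 := by rw [← h]; abel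
  have hcb' : ∀ y, c * (b * y) = p * (m * (d * y)) - y := fun y => by
    rw [← mul_assoc, hcb, sub_mul, one_mul, mul_assoc, mul_assoc]
  ext i j
  fin_cases i <;> fin_cases j <;>
    simp [Matrix.mul_apply, Fin.sum_univ_three] <;>
    simp only [mul_assoc, add_mul, mul_add, sub_mul, mul_sub, hbp, hcp, hdp, hbm, hcm, hdm, hmp,
      hbp', hcp', hdp', hbm', hcm', hdm', hmp', hcb, hcb', neg_mul, mul_neg, mul_one, one_mul] <;>
    abel

/-- **multiplicativity in the central entry** -/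
theorem Pr.step (T : Pr R) (x xp xm : (Matrix (Fin 2) (Fin 2) R)ˣ) (p m : R)
    (hpc : ∀ y, y * p = p * y) (hmc : ∀ y, y * m = m * y) (b c d : R)
    (h : p * (m * d) - c * b = 1)
    (hx : (x : Matrix (Fin 2) (Fin 2) R) = !![p * m, b; c, d])
    (hxp : (xp : Matrix (Fin 2) (Fin 2) R) = !![p, b; c, m * d])
    (hxm : (xm : Matrix (Fin 2) (Fin 2) R) = !![m, b; c, p * d])
    (hp : T.P _ xp) (hm : T.P _ xm) : T.P _ x := by
  apply T.unst Unit
  apply T.unre e3
  have h1 : Units.map (TH57.Thr.re e3) (Units.map (stm Unit) x) =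
      Lf p d c * Units.map (TH57.Thr.re e3') (Units.map (stm Unit) xp) *
        Units.map (TH57.Thr.re e3) (Units.map (stm Unit) xm) * Rt p (m * c) (m * d) := by
    apply Units.ext
    rw [Units.val_mul, Units.val_mul, Units.val_mul, Lf_val, Rt_val, st3 x _ _ _ _ hx,
      st3' xp _ _ _ _ hxp, st3 xm _ _ _ _ hxm]
    have h2 : -(p * (m * d)) + 1 = -(c * b) := by rw [← h]; abel
    rw [h2, main_identity p m hpc hmc b c d h]
  rw [h1]
  exact T.mul _ _ (T.mul _ _ (T.mul _ _ (T.tt _ (TT_Lf ⊥ _ _ _))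
    (T.re _ _ (T.st _ _ hp))) (T.re _ _ (T.st _ _ hm))) (T.tt _ (TT_Rt ⊥ _ _ _))

/-- the matrix `(m, b; c, d)` with `m d - c b = 1`, `m` central -/
def X2 (m : R) (hm : ∀ y, y * m = m * y) (a b c d : R) (h1 : m * d - c * b = 1)
    (h2 : m * a - b * c = 1)
    (h3 : c * a = d * c) (h4 : a * b = b * d) : (Matrix (Fin 2) (Fin 2) R)ˣ where
  val := !![m, b; c, d]
  inv := !![a, -b; -c, m]
  val_inv := by
    rw [Matrix.mul_fin_two, Matrix.one_fin_two]
    congr 1
    ext i j
    fin_cases i <;> fin_cases j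
    · simp only [Fin.zero_eta, Matrix.of_apply, Matrix.cons_val_zero, Matrix.cons_val', mul_neg,
        ← sub_eq_add_neg, h2]
    · change m * -b + b * m = 0
      rw [mul_neg, hm b]
      abel
    · change c * a + d * -c = 0
      rw [h3, mul_neg]
      abel
    · change c * -b + d * m = 1
      rw [mul_neg, hm d, ← h1]
      abel
  inv_val := by
    rw [Matrix.mul_fin_two, Matrix.one_fin_two]
    congr 1
    ext i j
    fin_cases i <;> fin_cases j
    · change a * m + -b * c = 1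
      rw [hm a, neg_mul, ← h2]
      abel
    · change a * b + -b * d = 0
      rw [h4, neg_mul]
      abel
    · change -c * m + m * c = 0
      rw [neg_mul, hm c]
      abel
    · change -c * b + m * d = 1
      rw [neg_mul, ← h1]
      abel

theorem X2_val (m : R) (hm : ∀ y, y * m = m * y) (a b c d : R) (h1 : m * d - c * b = 1)
    (h2 : m * a - b * c = 1) (h3 : c * a = d * c) (h4 : a * b = b * d) :
    (X2 m hm a b c d h1 h2 h3 h4 : Matrix (Fin 2) (Fin 2) R) = !![m, b; c, d] := rfl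

end ring

end Pool.Agent.X263.Bc
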